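import Pool.Agent.QSN.StmtsB

/-!
# Squad QSN (MP_dc0713_gt), row BAS: the grid exists.
-/

set_option autoImplicit false

namespace Pool.Agent.QSN.H14

open Matrix Finset Pool.Agent.QSX Pool.Agent.QSN

/-- A nonzero bracket gives a factor with exponents `1`, `1`. -/
theorem exists_factor (hB : BrnStmt) {X : Dat} (hX : MS X) (l k : hX.ι)
    (hlk : hX.rt l ≠ hX.rt k) (h : hX.e l * hX.e k - hX.e k * hX.e l ≠ 0) :
    ∃ t ∈ hX.L l k, hX.rt t.1 = hX.rt l + hX.rt k ∧ hX.comp t.1 = hX.comp l := by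
  rw [hB X hX l k hlk] at h
  unfold MS.br at h
  have h1 : ((hX.L l k).filter fun t => t.2.1 = 1 ∧ t.2.2.1 = 1) ≠ [] := by
    intro h0
    rw [h0] at h
    exact h (by simp)
  obtain ⟨t, ht⟩ := List.exists_mem_of_ne_nil _ h1
  rw [List.mem_filter] at ht
  obtain ⟨ht1, ht2⟩ := ht
  have ht3 : t.2.1 = 1 ∧ t.2.2.1 = 1 := by simpa using ht2
  obtain ⟨-, -, h3⟩ := hX.L_rt l k t ht1
  refine ⟨t, ht1, ?_, (hX.L_comp l k t ht1).1⟩
  rw [h3, ht3.1, ht3.2]
  simp

theorem bas (hB : BrnStmt) : BasStmt := by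
  classical
  intro X hX
  let S : Type := {p : hX.ι × hX.ι // hX.rt p.1 ≠ hX.rt p.2 ∧
    hX.rt p.1 + hX.rt p.2 = hX.rt (hX.top (hX.comp p.1))}
  let f : S → Matrix (Fin X.m) (Fin X.m) ℝ := fun p =>
    hX.e p.1.1 * hX.e p.1.2 - hX.e p.1.2 * hX.e p.1.1
  obtain ⟨κ, a, ha1, ha2, ha3⟩ := exists_linearIndependent' ℝ f
  have : Finite S := inferInstance
  have : Finite κ := Finite.of_injective a ha1
  let ee : κ ≃ Fin (Nat.card κ) := Finite.equivFin κ
  have key : ∀ j, ¬ hX.One j → ∀ t, hX.rt t = hX.rt (hX.top j) →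
      hX.e t ∈ Submodule.span ℝ (Set.range f) := by
    intro j hj t ht
    unfold MS.One at hj
    push Not at hj
    obtain ⟨l0, hl0, hl0'⟩ := hj
    obtain ⟨ap, hap⟩ := hX.pos
    have hne : (Finset.univ.filter fun l : hX.ι => hX.comp l = j ∧
        hX.rt l ≠ hX.rt (hX.top j)).Nonempty :=
      ⟨l0, Finset.mem_filter.2 ⟨Finset.mem_univ _, hl0, hl0'⟩⟩
    obtain ⟨l, hl, hmax⟩ := Finset.exists_max_image _ (fun l => hX.rt l ap) hne
    rw [Finset.mem_filter] at hl
    obtain ⟨-, hlj, hlt⟩ := hl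
    have hct : hX.comp (hX.top j) = j := by
      have := hX.comp_top l
      rwa [hlj] at this
    have hex : ∃ k, hX.rt k ≠ hX.rt l ∧ hX.e l * hX.e k - hX.e k * hX.e l ≠ 0 := by
      by_contra hcon
      push Not at hcon
      refine hX.lin.ne_zero l (hX.climb l (by rw [hlj]; exact hlt) (hX.e l)
        (Submodule.subset_span ⟨l, rfl, rfl⟩) hcon)
    obtain ⟨k, hkl, hk⟩ := hex
    obtain ⟨t0, ht0, hr0, hc0⟩ := exists_factor hB hX l k hkl.symm hk
    have hrt0 : hX.rt t0.1 = hX.rt (hX.top j) := by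
      by_contra hcon
      have h1 := hmax t0.1 (Finset.mem_filter.2 ⟨Finset.mem_univ _, hc0.trans hlj, hcon⟩)
      have h2 : hX.rt t0.1 ap = hX.rt l ap + hX.rt k ap := by rw [hr0]; rfl
      have h3 := hap k
      have h4 : hX.rt t0.1 ap ≤ hX.rt l ap := h1
      linarith
    obtain ⟨W, hW, hWe⟩ := hX.gen l k hkl.symm t0 ht0 t (ht.trans hrt0.symm)
    rw [hWe]
    apply list_sum_mem
    intro x hx
    rw [List.mem_map] at hx
    obtain ⟨w, hw, rfl⟩ := hx
    apply Submodule.smul_mem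
    obtain ⟨hw1, hw2⟩ := hW w hw
    by_cases hz : hX.e w.1 * hX.e w.2.1 - hX.e w.2.1 * hX.e w.1 = 0
    · rw [hz]
      exact Submodule.zero_mem _
    · obtain ⟨t1, ht1, hr1, hc1⟩ := exists_factor hB hX w.1 w.2.1 hw1 hz
      have h1 : hX.comp t1.1 = hX.comp (hX.top j) :=
        hX.comp_rt _ _ ((hr1.trans hw2).trans ht)
      have h2 : hX.comp w.1 = j := (hc1.symm.trans h1).trans hct
      refine Submodule.subset_span ⟨⟨(w.1, w.2.1), hw1, ?_⟩, rfl⟩
      show hX.rt w.1 + hX.rt w.2.1 = hX.rt (hX.top (hX.comp w.1))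
      rw [h2, hw2, ht]
  refine ⟨{ D := Nat.card κ
            l := fun k => (a (ee.symm k)).1.1
            m := fun k => (a (ee.symm k)).1.2
            ne := fun k => (a (ee.symm k)).2.1
            top := fun k => (a (ee.symm k)).2.2
            lin := ?_
            span := ?_ }⟩
  · exact ha3.comp ee.symm ee.symm.injective
  · intro j hj t ht
    have h1 := key j hj t ht
    rw [← ha2, ← ee.symm.surjective.range_comp (f ∘ a)] at h1
    exact h1

end Pool.Agent.QSN.H14
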